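import Pool.Agent.W786.Ls.Cv
import Pool.Agent.Helper152.HilbF

/-! # The extension of the characteristic function of an interval (LS-CV1) -/

set_option autoImplicit false

namespace Pool.Agent.W338.LS

open MeasureTheory Set Complex
open scoped ENNReal NNReal
open Pool.Agent.W786.Ls

/-- the quadratic exponential -/
noncomputable def Ex (t x : ℝ) : ℂ := cexp (2 * Real.pi * I * ((t * x ^ 2 : ℝ) : ℂ))

theorem ex_norm (t x : ℝ) : ‖Ex t x‖ = 1 := by
  unfold Ex
  have : 2 * (Real.pi : ℂ) * I * ((t * x ^ 2 : ℝ) : ℂ) = ((2 * Real.pi * (t * x ^ 2) : ℝ) : ℂ) * I := by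
    push_cast
    ring
  rw [this, norm_exp_ofReal_mul_I]

theorem ex_cont (t : ℝ) : Continuous (Ex t) := by
  unfold Ex
  fun_prop

theorem ex_neg (t x : ℝ) : Ex t (-x) = Ex t x := by
  unfold Ex
  rw [neg_sq]

theorem ex_deriv (t x : ℝ) : HasDerivAt (Ex t) (Ex t x * (4 * Real.pi * I * t * x)) x := by
  have h1 : HasDerivAt (fun x : ℝ => t * x ^ 2) (t * (2 * x)) x := by
    simpa using ((hasDerivAt_pow 2 x).const_mul t)
  have h2 := (h1.ofReal_comp.const_mul (2 * (Real.pi : ℂ) * I)).cexp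
  convert! h2 using 1
  unfold Ex
  push_cast
  ring

theorem ex_ii (t a b : ℝ) : IntervalIntegrable (Ex t) volume a b :=
  (ex_cont t).intervalIntegrable a b

theorem vdc (t A B : ℝ) (ht : 0 < t) (hA : 0 < A) (hAB : A ≤ B) :
    ‖∫ x in A..B, Ex t x‖ ≤ 1 / (2 * Real.pi * t * A) := by
  have hpi := Real.pi_pos
  have hK : (4 * Real.pi * I * t : ℂ) ≠ 0 := by
    have h1 : (Real.pi : ℂ) ≠ 0 := ofReal_ne_zero.2 hpi.ne'
    have h2 : (t : ℂ) ≠ 0 := ofReal_ne_zero.2 ht.ne'
    simp [h1, h2, I_ne_zero]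
  have hB : 0 < B := hA.trans_le hAB
  have hpos : ∀ x ∈ uIcc A B, 0 < x := fun x hx => by
    rw [uIcc_of_le hAB] at hx
    exact hA.trans_le hx.1
  have hnorm : ‖(4 * Real.pi * I * t : ℂ)‖ = 4 * Real.pi * t := by
    rw [norm_mul, norm_mul, norm_mul, norm_I, norm_real, norm_real, Real.norm_of_nonneg hpi.le,
      Real.norm_of_nonneg ht.le]
    norm_num
  have hd : ∀ x ∈ uIcc A B, HasDerivAt (fun x : ℝ => Ex t x / (4 * Real.pi * I * t * x))
      (Ex t x - Ex t x / (4 * Real.pi * I * t * x ^ 2)) x := by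
    intro x hx
    have hx0 : (x : ℂ) ≠ 0 := ofReal_ne_zero.2 (hpos x hx).ne'
    have h1 : HasDerivAt (fun x : ℝ => (4 * Real.pi * I * t * x : ℂ)) (4 * Real.pi * I * t * 1) x :=
      (HasDerivAt.ofReal_comp (hasDerivAt_id x)).const_mul _
    have h2 := (ex_deriv t x).div h1 (mul_ne_zero hK hx0)
    convert! h2 using 1
    have ht' : (t : ℂ) ≠ 0 := ofReal_ne_zero.2 ht.ne'
    rw [eq_div_iff (pow_ne_zero 2 (mul_ne_zero hK hx0))]
    field_simp
  have hc : ContinuousOn (fun x : ℝ => Ex t x / (4 * Real.pi * I * t * x ^ 2)) (uIcc A B) := by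
    refine (ex_cont t).continuousOn.div (by fun_prop) fun x hx => ?_
    exact mul_ne_zero hK (pow_ne_zero 2 (ofReal_ne_zero.2 (hpos x hx).ne'))
  have h1 := intervalIntegral.integral_eq_sub_of_hasDerivAt hd
    ((ex_ii t A B).sub hc.intervalIntegrable)
  rw [intervalIntegral.integral_sub (ex_ii t A B) hc.intervalIntegrable, sub_eq_iff_eq_add] at h1
  rw [h1]
  have hn : ∀ x : ℝ, 0 < x → ‖Ex t x / (4 * Real.pi * I * t * x)‖ = 1 / (4 * Real.pi * t * x) := by
    intro x hx
    rw [norm_div, ex_norm, norm_mul, hnorm, norm_real, Real.norm_of_nonneg hx.le]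
  have hn2 : ∀ x : ℝ, 0 < x → ‖Ex t x / (4 * Real.pi * I * t * x ^ 2)‖ =
      1 / (4 * Real.pi * t) * (x ^ 2)⁻¹ := by
    intro x hx
    rw [norm_div, ex_norm, norm_mul, hnorm, norm_pow, norm_real, Real.norm_of_nonneg hx.le]
    field_simp
  have h3 : ‖∫ x in A..B, Ex t x / (4 * Real.pi * I * t * x ^ 2)‖ ≤
      1 / (4 * Real.pi * t) * (A⁻¹ - B⁻¹) := by
    refine (intervalIntegral.norm_integral_le_integral_norm hAB).trans (le_of_eq ?_)
    rw [intervalIntegral.integral_congr (g := fun x : ℝ => 1 / (4 * Real.pi * t) * (x ^ 2)⁻¹)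
      fun x hx => hn2 x (hpos x hx), intervalIntegral.integral_const_mul]
    congr 1
    have hd2 : ∀ x ∈ uIcc A B, HasDerivAt (fun x : ℝ => -x⁻¹) ((x ^ 2)⁻¹) x := by
      intro x hx
      have := (hasDerivAt_inv (hpos x hx).ne').neg
      rwa [neg_neg] at this
    have hc2 : ContinuousOn (fun x : ℝ => (x ^ 2)⁻¹) (uIcc A B) := by
      refine ContinuousOn.inv₀ (by fun_prop) fun x hx => pow_ne_zero 2 (hpos x hx).ne'
    rw [intervalIntegral.integral_eq_sub_of_hasDerivAt hd2 hc2.intervalIntegrable]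
    ring
  calc _ ≤ ‖Ex t B / (4 * Real.pi * I * t * B) - Ex t A / (4 * Real.pi * I * t * A)‖ +
        ‖∫ x in A..B, Ex t x / (4 * Real.pi * I * t * x ^ 2)‖ := norm_add_le _ _
    _ ≤ (1 / (4 * Real.pi * t * B) + 1 / (4 * Real.pi * t * A)) +
        1 / (4 * Real.pi * t) * (A⁻¹ - B⁻¹) := by
        refine add_le_add ((norm_sub_le _ _).trans (le_of_eq ?_)) h3
        rw [hn B hB, hn A hA]
    _ = 1 / (2 * Real.pi * t * A) := by
        field_simp
        ring

theorem van0 (t : ℝ) (ht : 1 ≤ t) (B : ℝ) (hB : 0 ≤ B) :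
    ‖∫ x in (0 : ℝ)..B, Ex t x‖ ≤ 2 * t ^ (-(1 / 2) : ℝ) := by
  have ht0 : 0 < t := by linarith
  have hpi := Real.pi_gt_three
  set δ : ℝ := t ^ (-(1 / 2) : ℝ) with hδ
  have hδ0 : 0 < δ := Real.rpow_pos_of_pos ht0 _
  have hδ2 : t * δ * δ = 1 := by
    rw [hδ, mul_assoc, ← Real.rpow_add ht0]
    norm_num
    rw [Real.rpow_neg_one]
    exact mul_inv_cancel₀ ht0.ne'
  have h0 : ∀ b : ℝ, 0 ≤ b → ‖∫ x in (0 : ℝ)..b, Ex t x‖ ≤ b := by
    intro b hb
    have := intervalIntegral.norm_integral_le_of_norm_le_const (a := 0) (b := b) (f := Ex t) (C := 1)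
      fun x _ => (ex_norm t x).le
    rwa [sub_zero, abs_of_nonneg hb, one_mul] at this
  rcases le_total B δ with h | h
  · exact (h0 B hB).trans (by linarith)
  · rw [← intervalIntegral.integral_add_adjacent_intervals (ex_ii t 0 δ) (ex_ii t δ B)]
    refine (norm_add_le _ _).trans ?_
    have h1 := h0 δ hδ0.le
    have h2 := vdc t δ B ht0 hδ0 h
    have h3 : 1 / (2 * Real.pi * t * δ) ≤ δ := by
      rw [div_le_iff₀ (by positivity)]
      have : δ * (2 * Real.pi * t * δ) = 2 * Real.pi * (t * δ * δ) := by ring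
      rw [this, hδ2]
      linarith
    linarith

theorem van1 (t : ℝ) (ht : 1 ≤ t) (B : ℝ) :
    ‖∫ x in (0 : ℝ)..B, Ex t x‖ ≤ 2 * t ^ (-(1 / 2) : ℝ) := by
  rcases le_total 0 B with h | h
  · exact van0 t ht B h
  · have h1 : ∫ x in (0 : ℝ)..B, Ex t x = -∫ x in (0 : ℝ)..(-B), Ex t x := by
      have h2 := intervalIntegral.integral_comp_neg (a := 0) (b := -B) (Ex t)
      simp_rw [ex_neg] at h2
      rw [h2, neg_neg, neg_zero, intervalIntegral.integral_symm]
    rw [h1, norm_neg]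
    exact van0 t ht (-B) (neg_nonneg.2 h)

theorem van2 (t : ℝ) (ht : 1 ≤ t) (A B : ℝ) :
    ‖∫ x in A..B, Ex t x‖ ≤ 4 * t ^ (-(1 / 2) : ℝ) := by
  rw [← intervalIntegral.integral_add_adjacent_intervals (ex_ii t A 0) (ex_ii t 0 B),
    intervalIntegral.integral_symm]
  refine (norm_add_le _ _).trans ?_
  rw [norm_neg]
  have h1 := van1 t ht A
  have h2 := van1 t ht B
  linarith

theorem ph1_int (t z : ℝ) : ph1 t z = ∫ v in (-1 : ℝ)..1, qe z t v := by
  unfold ph1
  rw [intervalIntegral.integral_of_le (by norm_num), integral_Ico_eq_integral_Ioo,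
    integral_Ioc_eq_integral_Ioo]

theorem ph1_eq (t z : ℝ) (ht : 0 < t) :
    cexp (Real.pi * I * ((z ^ 2 / (2 * t) : ℝ) : ℂ)) * ph1 t z =
      ∫ x in (-1 + z / (2 * t))..(1 + z / (2 * t)), Ex t x := by
  rw [ph1_int, ← intervalIntegral.integral_const_mul,
    ← intervalIntegral.integral_comp_add_right (Ex t) (z / (2 * t))]
  refine intervalIntegral.integral_congr fun v _ => ?_
  have ht' : (t : ℂ) ≠ 0 := ofReal_ne_zero.2 ht.ne'
  unfold qe Ex
  rw [← Complex.exp_add]
  congr 1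
  push_cast
  field_simp
  ring

theorem ph1_norm (t z : ℝ) (ht : 0 < t) :
    ‖ph1 t z‖ = ‖∫ x in (-1 + z / (2 * t))..(1 + z / (2 * t)), Ex t x‖ := by
  rw [← ph1_eq t z ht, norm_mul]
  have : (Real.pi : ℂ) * I * ((z ^ 2 / (2 * t) : ℝ) : ℂ) =
      ((Real.pi * (z ^ 2 / (2 * t)) : ℝ) : ℂ) * I := by
    push_cast
    ring
  rw [this, norm_exp_ofReal_mul_I, one_mul]

theorem ph1_neg (t z : ℝ) (ht : 0 < t) : ‖ph1 t (-z)‖ = ‖ph1 t z‖ := by
  rw [ph1_norm t _ ht, ph1_norm t _ ht]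
  congr 1
  have h2 := intervalIntegral.integral_comp_neg (a := -1 + -z / (2 * t)) (b := 1 + -z / (2 * t)) (Ex t)
  simp_rw [ex_neg] at h2
  rw [h2]
  congr 1
  · ring
  · ring

theorem ph1_dec (t y : ℝ) (ht : 0 < t) (hy : 4 * t ≤ y) : ‖ph1 t y‖ ≤ y⁻¹ := by
  have hpi := Real.pi_gt_three
  have hy0 : 0 < y := by linarith
  have hA : y / (4 * t) ≤ -1 + y / (2 * t) := by
    have h1 : 1 ≤ y / (4 * t) := by rwa [le_div_iff₀ (by linarith), one_mul]
    have h2 : y / (2 * t) = 2 * (y / (4 * t)) := by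
      field_simp
      ring
    linarith
  have hA0 : 0 < y / (4 * t) := by positivity
  have h1 := vdc t (-1 + y / (2 * t)) (1 + y / (2 * t)) ht (hA0.trans_le hA) (by linarith)
  rw [ph1_norm t y ht]
  refine h1.trans ?_
  calc 1 / (2 * Real.pi * t * (-1 + y / (2 * t))) ≤ 1 / (2 * Real.pi * t * (y / (4 * t))) := by
        gcongr
    _ = 2 / (Real.pi * y) := by
        field_simp
        ring
    _ ≤ y⁻¹ := by
        rw [div_le_iff₀ (by positivity), mul_comm Real.pi y, ← mul_assoc, inv_mul_cancel₀ hy0.ne']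
        linarith

theorem ph1_cont (t : ℝ) : Continuous (ph1 t) := by
  have h : ph1 t = fun z => ∫ v in (-1 : ℝ)..1, qe z t v := funext fun z => ph1_int t z
  rw [h]
  refine intervalIntegral.continuous_parametric_intervalIntegral_of_continuous' ?_ _ _
  unfold qe
  fun_prop

theorem qe_norm (y t v : ℝ) : ‖qe y t v‖ = 1 := by
  unfold qe
  have : 2 * (Real.pi : ℂ) * I * ((v * y + v ^ 2 * t : ℝ) : ℂ) =
      ((2 * Real.pi * (v * y + v ^ 2 * t) : ℝ) : ℂ) * I := by
    push_cast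
    ring
  rw [this, norm_exp_ofReal_mul_I]

/-- Plancherel -/
theorem planch (t : ℝ) : ∫⁻ y, ‖ph1 t y‖ₑ ^ (2 : ℕ) = 2 := by
  obtain ⟨f, hf⟩ : ∃ f : ℝ → ℂ, f = (Ico (-1 : ℝ) 1).indicator fun v => qe 0 t v := ⟨_, rfl⟩
  have hc : Continuous fun v => qe 0 t v := by
    unfold qe
    fun_prop
  have hf1 : Integrable f := by
    rw [hf, integrable_indicator_iff measurableSet_Ico]
    exact (hc.integrableOn_Icc (a := -1) (b := 1)).mono_set Ico_subset_Icc_self
  have hf2 : MemLp f 2 := by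
    rw [hf, memLp_indicator_iff_restrict measurableSet_Ico]
    refine MemLp.of_bound hc.aestronglyMeasurable 1 ?_
    exact Filter.Eventually.of_forall fun v => (qe_norm 0 t v).le
  obtain ⟨hm, he⟩ := Pool.Agent.Helper152.Hilb.plancherel hf1 hf2
  have hF : ∀ y, FourierTransform.fourier f (-y) = ph1 t y := by
    intro y
    rw [Real.fourier_real_eq_integral_exp_smul, hf]
    unfold ph1
    rw [← integral_indicator measurableSet_Ico]
    refine integral_congr_ae (Filter.Eventually.of_forall fun v => ?_)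
    show _ • (Ico (-1 : ℝ) 1).indicator (fun v => qe 0 t v) v = (Ico (-1 : ℝ) 1).indicator _ v
    by_cases hv : v ∈ Ico (-1 : ℝ) 1
    · rw [indicator_of_mem hv, indicator_of_mem hv]
      unfold qe
      rw [smul_eq_mul, ← Complex.exp_add]
      congr 1
      push_cast
      ring
    · rw [indicator_of_notMem hv, indicator_of_notMem hv, smul_zero]
  have h2 : ∫ x, ‖f x‖ ^ 2 = 2 := by
    have h3 : (fun x => ‖f x‖ ^ 2) = (Ico (-1 : ℝ) 1).indicator fun _ => (1 : ℝ) := by
      funext x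
      rw [hf]
      by_cases hv : x ∈ Ico (-1 : ℝ) 1
      · rw [indicator_of_mem hv, indicator_of_mem hv, qe_norm, one_pow]
      · rw [indicator_of_notMem hv, indicator_of_notMem hv, norm_zero]
        norm_num
    rw [h3, integral_indicator measurableSet_Ico, setIntegral_const, smul_eq_mul, mul_one,
      Real.volume_real_Ico_of_le (by norm_num)]
    norm_num
  have h4 : Integrable fun x => ‖FourierTransform.fourier f x‖ ^ 2 := hm.integrable_norm_pow (by norm_num)
  have h5 : ∫⁻ x, ‖FourierTransform.fourier f x‖ₑ ^ (2 : ℕ) = 2 := by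
    have h6 := ofReal_integral_eq_lintegral_ofReal h4
      (Filter.Eventually.of_forall fun x => by positivity)
    rw [he, h2] at h6
    have h7 : ∀ x, ENNReal.ofReal (‖FourierTransform.fourier f x‖ ^ 2) =
        ‖FourierTransform.fourier f x‖ₑ ^ (2 : ℕ) := fun x => by
      rw [ENNReal.ofReal_pow (norm_nonneg _), ofReal_norm]
    simp_rw [h7] at h6
    rw [← h6]
    norm_num
  rw [← h5, ← lintegral_sub_left_eq_self (fun x => ‖FourierTransform.fourier f x‖ₑ ^ (2 : ℕ)) 0]
  refine lintegral_congr fun y => ?_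
  rw [zero_sub, hF]

theorem tail1 (t : ℝ) (ht : 1 ≤ t) :
    ∫⁻ y in Ioi (4 * t), ‖ph1 t y‖ₑ ^ (2 : ℕ) ≤ ENNReal.ofReal (1 / 4) := by
  have ht0 : 0 < t := by linarith
  calc ∫⁻ y in Ioi (4 * t), ‖ph1 t y‖ₑ ^ (2 : ℕ)
      ≤ ∫⁻ y in Ioi (4 * t), ENNReal.ofReal (y ^ (-2 : ℝ)) := by
        refine setLIntegral_mono' measurableSet_Ioi fun y hy => ?_
        have hy' : 4 * t < y := hy
        have hy0 : 0 < y := by linarith
        rw [← ofReal_norm, ← ENNReal.ofReal_pow (norm_nonneg _)]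
        refine ENNReal.ofReal_le_ofReal ?_
        rw [Real.rpow_neg hy0.le, Real.rpow_two, ← inv_pow]
        exact pow_le_pow_left₀ (norm_nonneg _) (ph1_dec t y ht0 hy'.le) 2
    _ = ENNReal.ofReal (∫ y in Ioi (4 * t), y ^ (-2 : ℝ)) := by
        rw [ofReal_integral_eq_lintegral_ofReal (integrableOn_Ioi_rpow_of_lt (by norm_num) (by linarith))]
        refine (ae_restrict_iff' measurableSet_Ioi).2 (Filter.Eventually.of_forall fun y hy => ?_)
        have hy' : 4 * t < y := hy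
        exact Real.rpow_nonneg (by linarith) _
    _ ≤ ENNReal.ofReal (1 / 4) := by
        refine ENNReal.ofReal_le_ofReal ?_
        rw [integral_Ioi_rpow_of_lt (by norm_num) (by linarith)]
        have h1 : (-2 + 1 : ℝ) = -1 := by norm_num
        rw [h1, Real.rpow_neg_one, div_neg, div_one, neg_neg, inv_eq_one_div]
        exact one_div_le_one_div_of_le (by norm_num) (by linarith)

theorem tail2 (t : ℝ) (ht : 1 ≤ t) :
    ∫⁻ y in Iio (-(4 * t)), ‖ph1 t y‖ₑ ^ (2 : ℕ) ≤ ENNReal.ofReal (1 / 4) := by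
  have ht0 : 0 < t := by linarith
  refine le_trans (le_of_eq ?_) (tail1 t ht)
  rw [← lintegral_indicator measurableSet_Iio, ← lintegral_indicator measurableSet_Ioi,
    ← lintegral_sub_left_eq_self _ 0]
  refine lintegral_congr fun y => ?_
  rw [zero_sub]
  by_cases hy : y ∈ Ioi (4 * t)
  · have hy' : -y ∈ Iio (-(4 * t)) := by
      have : 4 * t < y := hy
      show -y < -(4 * t)
      linarith
    rw [indicator_of_mem hy, indicator_of_mem hy', ← ofReal_norm, ph1_neg t y ht0, ofReal_norm]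
  · have hy' : -y ∉ Iio (-(4 * t)) := fun h => hy (by
      have : -y < -(4 * t) := h
      show 4 * t < y
      linarith)
    rw [indicator_of_notMem hy, indicator_of_notMem hy']

theorem ptw (a μ q : ℝ) (ha : 0 ≤ a) (hμ : 0 < μ) (hq : 2 ≤ q) :
    a ^ 2 ≤ μ ^ 2 + μ ^ (2 - q) * a ^ q := by
  rcases le_total a μ with h | h
  · have h1 : 0 ≤ μ ^ (2 - q) * a ^ q :=
      mul_nonneg (Real.rpow_nonneg hμ.le _) (Real.rpow_nonneg ha _)
    nlinarith [pow_le_pow_left₀ ha h 2]
  · have ha0 : 0 < a := hμ.trans_le h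
    have h1 : a ^ 2 ≤ μ ^ (2 - q) * a ^ q := by
      have h2 : a ^ (2 - q) ≤ μ ^ (2 - q) :=
        Real.rpow_le_rpow_of_nonpos hμ h (by linarith)
      calc a ^ 2 = a ^ (2 - q) * a ^ q := by
            rw [← Real.rpow_add ha0, sub_add_cancel, Real.rpow_two]
        _ ≤ μ ^ (2 - q) * a ^ q := mul_le_mul_of_nonneg_right h2 (Real.rpow_nonneg ha _)
    nlinarith [sq_nonneg μ]

theorem cv1 : Cv1Stm := by
  refine ⟨⟨4, fun t z ht => ?_⟩, fun t z w ht => ?_, fun q hq => ?_⟩
  · rw [ph1_norm t z (by linarith)]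
    exact van2 t ht _ _
  · have ht0 : 0 < t := by linarith
    rw [ph1_eq t z ht0, ph1_eq t w ht0, intervalIntegral.integral_interval_sub_interval_comm
      (ex_ii t _ _) (ex_ii t _ _) (ex_ii t _ _)]
    have h1 : ∀ a b : ℝ, ‖∫ x in a..b, Ex t x‖ ≤ |b - a| := fun a b => by
      have := intervalIntegral.norm_integral_le_of_norm_le_const (a := a) (b := b) (f := Ex t)
        (C := 1) fun x _ => (ex_norm t x).le
      rwa [one_mul] at this
    refine (norm_sub_le _ _).trans ((add_le_add (h1 _ _) (h1 _ _)).trans (le_of_eq ?_))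
    have e1 : -1 + w / (2 * t) - (-1 + z / (2 * t)) = -((z - w) / (2 * t)) := by ring
    have e2 : 1 + w / (2 * t) - (1 + z / (2 * t)) = -((z - w) / (2 * t)) := by ring
    rw [e1, e2, abs_neg, abs_div, abs_of_pos (by linarith : (0 : ℝ) < 2 * t)]
    field_simp
    ring
  · refine ⟨16 ^ (1 - q / 2), Real.rpow_pos_of_pos (by norm_num) _, fun t ht => ?_⟩
    have ht0 : 0 < t := by linarith
    obtain ⟨μ, hμ⟩ : ∃ μ : ℝ, μ = (16 * t) ^ (-(1 / 2) : ℝ) := ⟨_, rfl⟩
    have hμ0 : 0 < μ := hμ ▸ Real.rpow_pos_of_pos (by linarith) _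
    have hμ2 : μ ^ 2 = (16 * t)⁻¹ := by
      rw [hμ, ← Real.rpow_natCast, ← Real.rpow_mul (by linarith)]
      norm_num
      rw [Real.rpow_neg_one, mul_inv]
      ring
    have hμq : μ ^ (q - 2) = 16 ^ (1 - q / 2) * t ^ (1 - q / 2) := by
      rw [hμ, ← Real.rpow_mul (by linarith), ← Real.mul_rpow (by norm_num) ht0.le]
      congr 1
      ring
    set L := ∫⁻ y in Icc (-4 * t) (4 * t), ‖ph1 t y‖ₑ ^ q with hL
    have hmeas : Measurable fun y => ‖ph1 t y‖ₑ := (ph1_cont t).measurable.enorm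
    have h1 : ∫⁻ y in Icc (-4 * t) (4 * t), ‖ph1 t y‖ₑ ^ (2 : ℕ) ≤
        ENNReal.ofReal (1 / 2) + ENNReal.ofReal (μ ^ (2 - q)) * L := by
      calc ∫⁻ y in Icc (-4 * t) (4 * t), ‖ph1 t y‖ₑ ^ (2 : ℕ)
          ≤ ∫⁻ y in Icc (-4 * t) (4 * t),
              (ENNReal.ofReal (μ ^ 2) + ENNReal.ofReal (μ ^ (2 - q)) * ‖ph1 t y‖ₑ ^ q) := by
            refine lintegral_mono fun y => ?_
            show ‖ph1 t y‖ₑ ^ (2 : ℕ) ≤ _
            rw [← ofReal_norm, ← ENNReal.ofReal_pow (norm_nonneg _),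
              ENNReal.ofReal_rpow_of_nonneg (norm_nonneg _) (by linarith),
              ← ENNReal.ofReal_mul (Real.rpow_nonneg hμ0.le _),
              ← ENNReal.ofReal_add (by positivity) (mul_nonneg (Real.rpow_nonneg hμ0.le _)
                (Real.rpow_nonneg (norm_nonneg _) _))]
            exact ENNReal.ofReal_le_ofReal (ptw _ μ q (norm_nonneg _) hμ0 hq)
        _ = ENNReal.ofReal (μ ^ 2) * volume (Icc (-4 * t) (4 * t)) +
              ENNReal.ofReal (μ ^ (2 - q)) * L := by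
            rw [lintegral_add_left measurable_const, setLIntegral_const,
              lintegral_const_mul _ (hmeas.pow_const q)]
        _ = ENNReal.ofReal (1 / 2) + ENNReal.ofReal (μ ^ (2 - q)) * L := by
            congr 1
            rw [Real.volume_Icc, ← ENNReal.ofReal_mul (by positivity), hμ2]
            congr 1
            field_simp
            ring
    have h2 : (2 : ℝ≥0∞) ≤ ENNReal.ofReal 1 + ENNReal.ofReal (μ ^ (2 - q)) * L := by
      calc (2 : ℝ≥0∞) = ∫⁻ y, ‖ph1 t y‖ₑ ^ (2 : ℕ) := (planch t).symm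
        _ = (∫⁻ y in Icc (-4 * t) (4 * t), ‖ph1 t y‖ₑ ^ (2 : ℕ)) +
              ∫⁻ y in (Icc (-4 * t) (4 * t))ᶜ, ‖ph1 t y‖ₑ ^ (2 : ℕ) :=
            (lintegral_add_compl _ measurableSet_Icc).symm
        _ ≤ (ENNReal.ofReal (1 / 2) + ENNReal.ofReal (μ ^ (2 - q)) * L) +
              (ENNReal.ofReal (1 / 4) + ENNReal.ofReal (1 / 4)) := by
            refine add_le_add h1 ?_
            have h3 : (Icc (-4 * t) (4 * t))ᶜ ⊆ Iio (-(4 * t)) ∪ Ioi (4 * t) := by
              intro y hy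
              rw [mem_compl_iff, mem_Icc, not_and_or, not_le, not_le] at hy
              rcases hy with hy | hy
              · left
                show y < -(4 * t)
                linarith
              · right
                exact hy
            refine (lintegral_mono_set h3).trans ((lintegral_union_le _ _ _).trans ?_)
            exact add_le_add (tail2 t ht) (tail1 t ht)
        _ = ENNReal.ofReal 1 + ENNReal.ofReal (μ ^ (2 - q)) * L := by
            rw [add_right_comm, ← ENNReal.ofReal_add (by norm_num) (by norm_num),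
              ← ENNReal.ofReal_add (by norm_num) (by norm_num)]
            norm_num
    have h4 : (1 : ℝ≥0∞) ≤ ENNReal.ofReal (μ ^ (2 - q)) * L := by
      rw [ENNReal.ofReal_one, ← one_add_one_eq_two] at h2
      exact (ENNReal.add_le_add_iff_left ENNReal.one_ne_top).1 h2
    calc ENNReal.ofReal (16 ^ (1 - q / 2) * t ^ (1 - q / 2)) = ENNReal.ofReal (μ ^ (q - 2)) * 1 := by
          rw [hμq, mul_one]
      _ ≤ ENNReal.ofReal (μ ^ (q - 2)) * (ENNReal.ofReal (μ ^ (2 - q)) * L) := by gcongr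
      _ = L := by
          rw [← mul_assoc, ← ENNReal.ofReal_mul (Real.rpow_nonneg hμ0.le _), ← Real.rpow_add hμ0]
          norm_num

end Pool.Agent.W338.LS
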